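import Pool.Agent.Results.MP_59f3ad_nt.AllPrimesUpToABound
import Pool.Agent.V35.WM
import Pool.Agent.H223.PS.Engine

/-!
# Leopoldt's conjecture at all primes up to a power, for all members of all families in windows

A family is given by `r ≥ 1` distinct monic polynomials `P_1, ..., P_r` with integral coefficients, each
of them linear or quadratic without real roots; its member at `t ∈ ℤ` is `F_t = (X - t) P_1 ⋯ P_r - 1`.
The member is good up to `y` if `F_t` is irreducible over `ℚ` and the field of one of its roots has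
exactly `1 + #{linear P_i}` real and `#{quadratic P_i}` complex places and satisfies Leopoldt's
conjecture at all primes `p ≤ y`. Let `σ ≥ 0`.

(1) Let `v_n ≥ 1` be a sequence with exponent of convergence at most `τ` (`0` for `v_n = x ^ n`) and
`θ < 1`. For all real `α` outside a set of Hausdorff dimension at most `(2 σ + τ) / (1 - θ)`, which is a
null set if `2 σ + τ < 1 - θ`, the following holds for all families: for all large `n` ALL members with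
`|t - α v_n| ≤ v_n ^ θ` are good up to `|t| ^ σ`.

(2) Let `q` be a prime and `κ > 0`. For all `α ∈ ℤ_q` outside a set of Hausdorff dimension at most
`2 σ / κ` and all families, for all large `T` ALL members with `0 ≤ t ≤ T` and
`|t - α|_q ≤ T ^ (-κ)` are good up to `t ^ σ`.
-/

set_option autoImplicit false

open Filter Topology MeasureTheory

namespace Pool.Agent.Results.MP_5f2860_nt.WindowsOfParameters

open Polynomial NumberField IntermediateField Pool.Agent.W254.LF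
open Pool.Agent.V35.WM (ExpLe)

/-- `P_1, ..., P_r` are `r ≥ 1` distinct monic polynomials with integral coefficients, each of them linear
or quadratic without real roots. -/
def Family {r : ℕ} (P : Fin r → ℤ[X]) : Prop :=
  0 < r ∧ (∀ i, (P i).Monic) ∧ Function.Injective P ∧
    ∀ i, (P i).natDegree = 1 ∨
      ((P i).natDegree = 2 ∧ ∀ x : ℝ, ((P i).map (Int.castRingHom ℝ)).eval x ≠ 0)

/-- The polynomial `F_t = (X - t) P_1 ⋯ P_r - 1`. -/
noncomputable def member {r : ℕ} (P : Fin r → ℤ[X]) (t : ℤ) : ℤ[X] := (X - C t) * ∏ i, P i - 1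

/-- `F_t` is irreducible over `ℚ`, and the number field generated by a root has `1 + #{linear P_i}` real
and `#{quadratic P_i}` complex places and satisfies Leopoldt's conjecture at all primes `p ≤ y`. -/
def Good {r : ℕ} (P : Fin r → ℤ[X]) (y : ℝ) (t : ℤ) : Prop :=
  Irreducible ((member P t).map (Int.castRingHom ℚ)) ∧
    ∀ (K : Type) [Field K] [NumberField K] (θ : K), aeval θ (member P t) = 0 → ℚ⟮θ⟯ = ⊤ →
      InfinitePlace.nrRealPlaces K = 1 + (Finset.univ.filter fun i => (P i).natDegree = 1).card ∧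
      InfinitePlace.nrComplexPlaces K = (Finset.univ.filter fun i => (P i).natDegree = 2).card ∧
      ∀ (p : ℕ) [Fact p.Prime], (p : ℝ) ≤ y → LeopoldtAt K p

/-- The parameters whose member is not good up to `|t| ^ σ`. -/
def bad {r : ℕ} (P : Fin r → ℤ[X]) (σ : ℝ) : Set ℤ := {t | ¬ Good P (|(t : ℝ)| ^ σ) t}

theorem count {r : ℕ} {P : Fin r → ℤ[X]} (hP : Family P) {σ : ℝ} (hσ : 0 ≤ σ) :
    ∃ C : ℝ, 0 ≤ C ∧ ∀ X : ℝ, 1 ≤ X → {t : ℤ | t ∈ bad P σ ∧ |(t : ℝ)| ≤ X}.Finite ∧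
      ({t : ℤ | t ∈ bad P σ ∧ |(t : ℝ)| ≤ X}.ncard : ℝ) ≤ C * X ^ (2 * σ) := by
  obtain ⟨h0, h1, h2, h3⟩ := hP
  obtain ⟨C₀, -, h⟩ := MP_59f3ad_nt.AllPrimesUpToABound.result r P h0 h1 h2 h3
  refine ⟨(∑ i, (P i).natDegree : ℕ) + C₀, by positivity, fun X hX => ?_⟩
  have hX0 : 0 ≤ X := by linarith
  obtain ⟨E, hE, hg⟩ := h ⌊X ^ σ⌋₊
  have hy : ((⌊X ^ σ⌋₊ : ℕ) : ℝ) ≤ X ^ σ := Nat.floor_le (Real.rpow_nonneg hX0 _)
  have hsub : {t : ℤ | t ∈ bad P σ ∧ |(t : ℝ)| ≤ X} ⊆ (E : Set ℤ) := by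
    rintro t ⟨ht, htX⟩
    by_contra hcon
    apply ht
    obtain ⟨g1, g2⟩ := hg t (fun h => hcon (Finset.mem_coe.2 h))
    refine ⟨g1, fun K _ _ θ hθ hadj => ?_⟩
    obtain ⟨g3, g4, g5⟩ := g2 K θ hθ hadj
    refine ⟨g3, g4, fun p _ hp => g5 p (Nat.le_floor (hp.trans ?_))⟩
    exact Real.rpow_le_rpow (abs_nonneg _) htX hσ
  have hfin : {t : ℤ | t ∈ bad P σ ∧ |(t : ℝ)| ≤ X}.Finite := E.finite_toSet.subset hsub
  refine ⟨hfin, ?_⟩
  have h4 : {t : ℤ | t ∈ bad P σ ∧ |(t : ℝ)| ≤ X}.ncard ≤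
      (∑ i, (P i).natDegree) * ⌊X ^ σ⌋₊ ^ 2 + C₀ := by
    refine (Set.ncard_le_ncard hsub E.finite_toSet).trans ?_
    rw [Set.ncard_coe_finset]
    exact hE
  have h5 : (({t : ℤ | t ∈ bad P σ ∧ |(t : ℝ)| ≤ X}.ncard : ℕ) : ℝ) ≤
      ((∑ i, (P i).natDegree : ℕ) : ℝ) * ((⌊X ^ σ⌋₊ : ℕ) : ℝ) ^ 2 + C₀ := by exact_mod_cast h4
  have h6 : ((⌊X ^ σ⌋₊ : ℕ) : ℝ) ^ 2 ≤ X ^ (2 * σ) := by
    refine (pow_le_pow_left₀ (Nat.cast_nonneg _) hy 2).trans (le_of_eq ?_)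
    rw [← Real.rpow_natCast, ← Real.rpow_mul hX0]
    congr 1
    push_cast
    ring
  have h7 : 1 ≤ X ^ (2 * σ) := Real.one_le_rpow hX (by linarith)
  have h8 : (0 : ℝ) ≤ ((∑ i, (P i).natDegree : ℕ) : ℝ) := Nat.cast_nonneg _
  have h9 : (0 : ℝ) ≤ (C₀ : ℝ) := Nat.cast_nonneg _
  nlinarith

theorem countable_poly : Countable ℤ[X] :=
  Cardinal.mk_le_aleph0_iff.1 (Polynomial.cardinalMk_le_max.trans (by simp))

/-- the families -/
def Fam : Type := {j : Σ r : ℕ, (Fin r → ℤ[X]) // Family j.2}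

instance : Countable Fam := by
  have h := countable_poly
  unfold Fam
  infer_instance

/-- **Main theorem.** Windows around the multiples of almost every real number, and residue classes around
the elements of `ℤ_q`. -/
theorem result (σ : ℝ) (hσ : 0 ≤ σ) :
    (∀ (v : ℕ → ℝ) (τ θ : ℝ), (∀ n, 1 ≤ v n) → 0 ≤ τ → ExpLe v τ → θ < 1 →
      ∃ E : Set ℝ, dimH E ≤ ENNReal.ofReal ((2 * σ + τ) / (1 - θ)) ∧
        (2 * σ + τ < 1 - θ → volume E = 0) ∧
        ∀ α ∉ E, ∀ (r : ℕ) (P : Fin r → ℤ[X]), Family P → ∃ n₀ : ℕ, ∀ n ≥ n₀, ∀ t : ℤ,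
          |(t : ℝ) - v n * α| ≤ (v n) ^ θ → Good P (|(t : ℝ)| ^ σ) t) ∧
    ∀ (q : ℕ) [Fact q.Prime] (κ : ℝ), 0 < κ →
      ∃ E : Set ℤ_[q], dimH E ≤ ENNReal.ofReal (2 * σ / κ) ∧
        ∀ α ∉ E, ∀ (r : ℕ) (P : Fin r → ℤ[X]), Family P → ∃ T₀ : ℝ, ∀ T ≥ T₀, ∀ t : ℕ,
          (t : ℝ) ≤ T → ‖(t : ℤ_[q]) - α‖ ≤ T ^ (-κ) → Good P ((t : ℝ) ^ σ) t := by
  have hthin : ∀ j : Fam, ∀ ε : ℝ, 0 < ε → ∃ C : ℝ, ∀ X : ℝ, 1 ≤ X →
      {t : ℤ | t ∈ bad j.1.2 σ ∧ |(t : ℝ)| ≤ X}.Finite ∧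
      ({t : ℤ | t ∈ bad j.1.2 σ ∧ |(t : ℝ)| ≤ X}.ncard : ℝ) ≤ C * X ^ (2 * σ + ε) := by
    intro j ε hε
    obtain ⟨C, hC0, hC⟩ := count j.2 hσ
    refine ⟨C, fun X hX => ⟨(hC X hX).1, (hC X hX).2.trans ?_⟩⟩
    exact mul_le_mul_of_nonneg_left (Real.rpow_le_rpow_of_exponent_le hX (by linarith)) hC0
  refine ⟨fun v τ θ hv hτ hvτ hθ => ?_, fun q _ κ hκ => ?_⟩
  · have h1θ : 0 < 1 - θ := by linarith
    set E : Set ℝ := ⋃ j : Fam, Pool.Agent.V35.WM.BadWin (bad j.1.2 σ) (fun t : ℤ => (t : ℝ)) v θ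
      with hE
    have hdim : dimH E ≤ ENNReal.ofReal ((2 * σ + τ) / (1 - θ)) := by
      rw [hE, dimH_iUnion]
      refine iSup_le fun j => ?_
      refine Pool.Agent.V35.WM.dim_badWin hv hτ hvτ (by linarith) hθ ?_
      intro ε hε
      obtain ⟨C, hC⟩ := hthin j ε hε
      exact ⟨C, fun X hX => hC X hX⟩
    refine ⟨E, hdim, fun hlt => ?_, fun α hα r P hP => ?_⟩
    · rw [← hausdorffMeasure_real]
      refine hausdorffMeasure_of_dimH_lt (d := 1) (hdim.trans_lt ?_)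
      rw [ENNReal.coe_one, ← ENNReal.ofReal_one]
      refine (ENNReal.ofReal_lt_ofReal_iff one_pos).2 ?_
      rw [div_lt_one h1θ]
      exact hlt
    · have h1 : α ∉ Pool.Agent.V35.WM.BadWin (bad P σ) (fun t : ℤ => (t : ℝ)) v θ := fun h =>
        hα (Set.mem_iUnion.2 ⟨⟨⟨r, P⟩, hP⟩, h⟩)
      unfold Pool.Agent.V35.WM.BadWin at h1
      rw [Set.mem_setOf_eq] at h1
      push Not at h1
      obtain ⟨n₀, h2⟩ := h1
      refine ⟨n₀, fun n hn t ht => ?_⟩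
      by_contra hcon
      have h3 := h2 n hn t hcon
      rw [smul_eq_mul, Real.norm_eq_abs] at h3
      linarith
  · rcases isEmpty_or_nonempty Fam with hem | hne
    · exact ⟨∅, by simp, fun α _ r P hP => (hem.false ⟨⟨r, P⟩, hP⟩).elim⟩
    · obtain ⟨f, hf⟩ := exists_surjective_nat Fam
      obtain ⟨E, hE, h⟩ := Pool.Agent.H223.PS.padic_nat q
        (fun j => {t : ℕ | (t : ℤ) ∈ bad (f j).1.2 σ}) (s := 2 * σ) (by linarith)
        (fun j ε hε => by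
          obtain ⟨C, hC⟩ := hthin (f j) ε hε
          refine ⟨C, fun X hX => ?_⟩
          obtain ⟨g1, g2⟩ := hC X hX
          have hmap : ∀ t ∈ {t : ℕ | t ∈ {t : ℕ | (t : ℤ) ∈ bad (f j).1.2 σ} ∧ (t : ℝ) ≤ X},
              (t : ℤ) ∈ {t : ℤ | t ∈ bad (f j).1.2 σ ∧ |(t : ℝ)| ≤ X} := by
            rintro t ⟨a, b⟩
            refine ⟨a, ?_⟩
            rw [Int.cast_natCast, abs_of_nonneg (Nat.cast_nonneg _)]
            exact b
          have hinj : Set.InjOn (fun t : ℕ => (t : ℤ))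
              {t : ℕ | t ∈ {t : ℕ | (t : ℤ) ∈ bad (f j).1.2 σ} ∧ (t : ℝ) ≤ X} :=
            fun a _ b _ hab => Int.natCast_inj.1 hab
          refine ⟨Set.Finite.of_injOn hmap hinj g1, le_trans ?_ g2⟩
          exact_mod_cast Set.ncard_le_ncard_of_injOn (fun t : ℕ => (t : ℤ)) hmap hinj g1) hκ
      refine ⟨E, hE, fun α hα r P hP => ?_⟩
      obtain ⟨j, hj⟩ := hf ⟨⟨r, P⟩, hP⟩
      obtain ⟨T₀, hT⟩ := h α hα j
      refine ⟨T₀, fun T hT0 t ht1 ht2 => ?_⟩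
      have h3 := hT T hT0 t ht1 ht2
      rw [Set.mem_setOf_eq, hj] at h3
      change ¬ ¬ Good P (|((t : ℤ) : ℝ)| ^ σ) t at h3
      rw [not_not, Int.cast_natCast, abs_of_nonneg (Nat.cast_nonneg _)] at h3
      exact h3

end Pool.Agent.Results.MP_5f2860_nt.WindowsOfParameters
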